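import Pool.Agent.H81.AF.Inter

/-!
helper81 (project MP_28250c_AF): the other half of interlacing and its consequences for sums of resolvents.
-/

set_option autoImplicit false

namespace ACpFrege

variable {ι : Type} [Fintype ι] [DecidableEq ι] {H : Matrix ι ι ℂ}
variable {κ : Type} [Fintype κ] [DecidableEq κ] (e : κ → ι)

omit [Fintype ι] in
theorem exz_add (x y : κ → ℂ) : exz e (x + y) = exz e x + exz e y := by
  funext i
  simp only [exz, Pi.add_apply, ← Finset.sum_add_distrib]
  refine Finset.sum_congr rfl fun k _ => ?_
  by_cases h : e k = i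
  · simp only [if_pos h]
  · simp only [if_neg h, add_zero]

omit [Fintype ι] in
theorem exz_smul (c : ℂ) (x : κ → ℂ) : exz e (c • x) = c • exz e x := by
  funext i
  simp only [exz, Pi.smul_apply, smul_eq_mul, Finset.mul_sum]
  refine Finset.sum_congr rfl fun k _ => ?_
  by_cases h : e k = i
  · simp only [if_pos h]
  · simp only [if_neg h, mul_zero]

/-- Interlacing, lower bound: if `r` rows and columns are deleted then the `j`-th eigenvalue of the submatrix is at least the
`(j + r)`-th eigenvalue of the matrix. -/
theorem lam_add_le_submatrix (hH : H.IsHermitian) (he : Function.Injective e) {r : ℕ}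
    (hc : Fintype.card κ + r = Fintype.card ι) {j : ℕ} (hj : j + r < Fintype.card ι) :
    lam H (j + r) ≤ lam (H.submatrix e e) j := by
  have hS : (H.submatrix e e).IsHermitian := hH.submatrix e
  have hj' : j < Fintype.card κ := by omega
  obtain ⟨m, hm⟩ : ∃ m, m + (j + r + 1) = Fintype.card ι := ⟨Fintype.card ι - (j + r + 1), by omega⟩
  let f : (κ → ℂ) →ₗ[ℂ] (Fin m → ℂ) :=
    { toFun := fun z i => ip (xi H (j + r + 1 + i)) (exz e z)
      map_add' := fun y z => by
        funext i
        rw [exz_add]
        exact ip_add_right _ _ _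
      map_smul' := fun c y => by
        funext i
        rw [exz_smul]
        exact ip_smul_right _ _ _ }
  refine lam_ge_of_subspace hS hj' (LinearMap.ker f) ?_ ?_
  · have h1 := LinearMap.finrank_range_add_finrank_ker f
    have h2 : Module.finrank ℂ (LinearMap.range f) ≤ m := by
      refine (Submodule.finrank_le _).trans (le_of_eq ?_)
      rw [Module.finrank_fin_fun]
    rw [Module.finrank_fintype_fun_eq_card] at h1
    omega
  · intro z hz
    have hzf : ∀ i : ℕ, j + r < i → i < Fintype.card ι → ip (xi H i) (exz e z) = 0 := by
      intro i h1 h2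
      have h3 := congrFun (LinearMap.mem_ker.1 hz) ⟨i - (j + r + 1), by omega⟩
      have h4 : j + r + 1 + (i - (j + r + 1)) = i := by omega
      change ip (xi H (j + r + 1 + (i - (j + r + 1)))) (exz e z) = 0 at h3
      rwa [h4] at h3
    rw [← form_exz, ← nsq_exz e he, form_re hH, nsq_expand hH, Finset.mul_sum]
    refine Finset.sum_le_sum fun i hi => ?_
    have hi' := Finset.mem_range.1 hi
    rcases lt_or_ge (j + r) i with hij | hij
    · rw [hzf i hij hi']
      simp
    · exact mul_le_mul_of_nonneg_right (lam_anti hH hij hj) (by positivity)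

/-- The sum of the resolvent of a principal submatrix is at most that of the matrix, sums over `a ≤ j`. -/
theorem res_submatrix_le (hH : H.IsHermitian) (he : Function.Injective e) {a : ℕ} {t : ℝ}
    (ht : ∀ j ∈ Finset.Ico a (Fintype.card ι), lam H j < t) :
    ∑ j ∈ Finset.Ico a (Fintype.card κ), 1 / (t - lam (H.submatrix e e) j) ≤
      ∑ j ∈ Finset.Ico a (Fintype.card ι), 1 / (t - lam H j) := by
  have hc := Fintype.card_le_of_injective e he
  have hsub : Finset.Ico a (Fintype.card κ) ⊆ Finset.Ico a (Fintype.card ι) := Finset.Ico_subset_Ico_right hc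
  refine (Finset.sum_le_sum fun j hj => ?_).trans (Finset.sum_le_sum_of_subset_of_nonneg hsub fun j hj _ => ?_)
  · have h1 := ht j (hsub hj)
    have h2 := lam_submatrix_le e hH he (Finset.mem_Ico.1 hj).2
    exact one_div_le_one_div_of_le (by linarith) (by linarith)
  · have h1 := ht j hj
    exact one_div_nonneg.2 (by linarith)

/-- The sum of the resolvent of a principal submatrix with one row less is at least that of the matrix without the first term. -/
theorem res_submatrix_ge (hH : H.IsHermitian) (he : Function.Injective e)
    (hc : Fintype.card κ + 1 = Fintype.card ι) {t : ℝ} (ht : lam H 0 < t) :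
    ∑ j ∈ Finset.range (Fintype.card ι), 1 / (t - lam H j) - 1 / (t - lam H 0) ≤
      ∑ j ∈ Finset.range (Fintype.card κ), 1 / (t - lam (H.submatrix e e) j) := by
  rw [← hc, Finset.sum_range_succ', add_sub_cancel_right]
  refine Finset.sum_le_sum fun j hj => ?_
  have hj' := Finset.mem_range.1 hj
  have h1 := lam_add_le_submatrix e hH he hc (j := j) (by omega)
  have h2 := lam_submatrix_le e hH he hj'
  have h3 := lam_anti hH (Nat.zero_le j) (by omega)
  exact one_div_le_one_div_of_le (by linarith) (by linarith)

theorem res_submatrix_le' (hH : H.IsHermitian) (he : Function.Injective e) {t : ℝ} (ht : lam H 0 < t) :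
    ∑ j ∈ Finset.range (Fintype.card κ), 1 / (t - lam (H.submatrix e e) j) ≤
      ∑ j ∈ Finset.range (Fintype.card ι), 1 / (t - lam H j) := by
  have h := res_submatrix_le e hH he (a := 0) (t := t) (fun j hj => by
    have := lam_anti hH (Nat.zero_le j) (Finset.mem_Ico.1 hj).2
    linarith)
  rwa [← Finset.range_eq_Ico, ← Finset.range_eq_Ico] at h

end ACpFrege
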