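import Pool.Agent.H88.AF.Spec

/-!
helper81 (project MP_28250c_AF): lower bound for the eigenvalues by a subspace (Courant, Fischer) and interlacing (Cauchy).
-/

set_option autoImplicit false

namespace ACpFrege

variable {ι : Type} [Fintype ι] [DecidableEq ι] {H : Matrix ι ι ℂ}

/-- If the form is at least `l` on a space of dimension more than `j` then the `j`-th eigenvalue is at least `l`. -/
theorem lam_ge_of_subspace (hH : H.IsHermitian) {j : ℕ} (hj : j < Fintype.card ι) {l : ℝ} (V : Submodule ℂ (ι → ℂ))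
    (hV : j < Module.finrank ℂ V) (h : ∀ y ∈ V, l * nsq y ≤ (ip y (H.mulVec y)).re) : l ≤ lam H j := by
  let f : V →ₗ[ℂ] (Fin j → ℂ) :=
    { toFun := fun y i => ip (xi H i) y.1
      map_add' := fun y z => by
        funext i
        exact ip_add_right _ _ _
      map_smul' := fun c y => by
        funext i
        exact ip_smul_right _ _ _ }
  have hker : LinearMap.ker f ≠ ⊥ := LinearMap.ker_ne_bot_of_finrank_lt (by
    rw [Module.finrank_fin_fun]
    exact hV)
  obtain ⟨y, hy, hy0⟩ := Submodule.exists_mem_ne_zero_of_ne_bot hker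
  have hyf : ∀ i : ℕ, i < j → ip (xi H i) y.1 = 0 := fun i hi => congrFun (LinearMap.mem_ker.1 hy) ⟨i, hi⟩
  have hyn : y.1 ≠ 0 := fun h0 => hy0 (Subtype.ext h0)
  have h1 : (ip y.1 (H.mulVec y.1)).re ≤ lam H j * nsq y.1 := by
    rw [form_re hH, nsq_expand hH, Finset.mul_sum]
    refine Finset.sum_le_sum fun i hi => ?_
    have hi' := Finset.mem_range.1 hi
    rcases lt_or_ge i j with hij | hij
    · rw [hyf i hij]
      simp
    · exact mul_le_mul_of_nonneg_right (lam_anti hH hij hi') (by positivity)
  have h2 := (h y.1 y.2).trans h1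
  have h3 : 0 < nsq y.1 := lt_of_le_of_ne (nsq_nonneg _) fun h4 => hyn (nsq_eq_zero.1 h4.symm)
  exact le_of_mul_le_mul_right h2 h3

/-- If there are `j + 1` orthonormal vectors on whose combinations the form is at least `l` then the `j`-th eigenvalue is at
least `l`. -/
theorem lam_ge_of_orthonormal (hH : H.IsHermitian) {j : ℕ} (hj : j < Fintype.card ι) {l : ℝ} (z : Fin (j + 1) → ι → ℂ)
    (hz : ∀ a b, ip (z a) (z b) = if a = b then 1 else 0)
    (h : ∀ c : Fin (j + 1) → ℂ, l * nsq (∑ a, c a • z a) ≤ (ip (∑ a, c a • z a) (H.mulVec (∑ a, c a • z a))).re) :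
    l ≤ lam H j := by
  let g : (Fin (j + 1) → ℂ) →ₗ[ℂ] (ι → ℂ) :=
    { toFun := fun c => ∑ a, c a • z a
      map_add' := fun c d => by
        simp only [Pi.add_apply, add_smul, Finset.sum_add_distrib]
      map_smul' := fun r c => by
        simp only [Pi.smul_apply, smul_eq_mul, mul_smul, Finset.smul_sum, RingHom.id_apply] }
  have hg : Function.Injective g := by
    rw [injective_iff_map_eq_zero]
    intro c hc
    funext a
    have h1 : ip (z a) (g c) = c a := by
      change ip (z a) (∑ b, c b • z b) = c a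
      rw [ip_sum_right]
      simp only [ip_smul_right, hz]
      simp
    rw [← h1, hc, ip_zero_right]
    rfl
  refine lam_ge_of_subspace hH hj (LinearMap.range g) ?_ ?_
  · rw [LinearMap.finrank_range_of_inj hg, Module.finrank_fin_fun]
    exact Nat.lt_succ_self j
  · rintro _ ⟨c, rfl⟩
    exact h c

/-- The form of a combination of the first eigenvectors. -/
theorem form_comb (hH : H.IsHermitian) {j : ℕ} (hj : j < Fintype.card ι) (c : Fin (j + 1) → ℂ) :
    lam H j * nsq (∑ a : Fin (j + 1), c a • xi H a) ≤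
      (ip (∑ a : Fin (j + 1), c a • xi H a) (H.mulVec (∑ a : Fin (j + 1), c a • xi H a))).re := by
  obtain ⟨y, hy⟩ : ∃ y : ι → ℂ, y = ∑ a : Fin (j + 1), c a • xi H a := ⟨_, rfl⟩
  rw [← hy, form_re hH, nsq_expand hH, Finset.mul_sum]
  refine Finset.sum_le_sum fun i hi => ?_
  have hi' := Finset.mem_range.1 hi
  rcases lt_or_ge j i with hij | hij
  · have h0 : ip (xi H i) y = 0 := by
      rw [hy, ip_sum_right]
      refine Finset.sum_eq_zero fun a _ => ?_
      rw [ip_smul_right, xi_on hH hi' (lt_of_le_of_lt (Nat.lt_succ_iff.1 a.2) hj), if_neg, mul_zero]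
      have := a.2
      omega
    rw [h0]
    simp
  · exact mul_le_mul_of_nonneg_right (lam_anti hH hij hj) (by positivity)

/-- Extension by zero along an injective map. -/
noncomputable def exz {κ : Type} [Fintype κ] [DecidableEq κ] (e : κ → ι) (x : κ → ℂ) : ι → ℂ :=
  fun i => ∑ k, if e k = i then x k else 0

section sub

variable {κ : Type} [Fintype κ] [DecidableEq κ] (e : κ → ι)

theorem exz_apply (he : Function.Injective e) (x : κ → ℂ) (k : κ) : exz e x (e k) = x k := by
  unfold exz
  rw [Finset.sum_eq_single k]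
  · rw [if_pos rfl]
  · intro k' _ h
    exact if_neg fun h1 => h (he h1)
  · intro h
    exact absurd (Finset.mem_univ k) h

theorem exz_sum (y : ι → ℂ) (x : κ → ℂ) :
    ∑ i, (starRingEnd ℂ) (exz e x i) * y i = ∑ k, (starRingEnd ℂ) (x k) * y (e k) := by
  unfold exz
  simp only [map_sum, Finset.sum_mul]
  rw [Finset.sum_comm]
  refine Finset.sum_congr rfl fun k _ => ?_
  rw [Finset.sum_eq_single (e k)]
  · rw [if_pos rfl]
  · intro i _ h
    rw [if_neg (Ne.symm h)]
    simp
  · intro h
    exact absurd (Finset.mem_univ _) h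

theorem exz_sum' (y : ι → ℂ) (x : κ → ℂ) : ∑ i, y i * exz e x i = ∑ k, y (e k) * x k := by
  unfold exz
  simp only [Finset.mul_sum]
  rw [Finset.sum_comm]
  refine Finset.sum_congr rfl fun k _ => ?_
  rw [Finset.sum_eq_single (e k)]
  · rw [if_pos rfl]
  · intro i _ h
    rw [if_neg (Ne.symm h), mul_zero]
  · intro h
    exact absurd (Finset.mem_univ _) h

theorem ip_exz (he : Function.Injective e) (x y : κ → ℂ) : ip (exz e x) (exz e y) = ip x y := by
  unfold ip
  rw [exz_sum]
  exact Finset.sum_congr rfl fun k _ => by rw [exz_apply e he]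

theorem nsq_exz (he : Function.Injective e) (x : κ → ℂ) : nsq (exz e x) = nsq x := by
  rw [nsq_eq_re, nsq_eq_re, ip_exz e he]

theorem form_exz (H : Matrix ι ι ℂ) (x y : κ → ℂ) :
    ip (exz e x) (H.mulVec (exz e y)) = ip x ((H.submatrix e e).mulVec y) := by
  unfold ip
  rw [exz_sum]
  refine Finset.sum_congr rfl fun k _ => ?_
  congr 1
  exact exz_sum' e (fun i => H (e k) i) y

theorem exz_comb {j : ℕ} (c : Fin j → ℂ) (z : Fin j → κ → ℂ) : ∑ a, c a • exz e (z a) = exz e (∑ a, c a • z a) := by
  funext i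
  simp only [Finset.sum_apply, Pi.smul_apply, smul_eq_mul, exz, Finset.mul_sum]
  rw [Finset.sum_comm]
  refine Finset.sum_congr rfl fun k _ => ?_
  by_cases h : e k = i
  · simp only [if_pos h]
  · simp only [if_neg h, mul_zero, Finset.sum_const_zero]

/-- Interlacing: the `j`-th eigenvalue of a principal submatrix is at most the `j`-th eigenvalue of the matrix. -/
theorem lam_submatrix_le (hH : H.IsHermitian) (he : Function.Injective e) {j : ℕ} (hj : j < Fintype.card κ) :
    lam (H.submatrix e e) j ≤ lam H j := by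
  have hS : (H.submatrix e e).IsHermitian := hH.submatrix e
  have hj' : j < Fintype.card ι := lt_of_lt_of_le hj (Fintype.card_le_of_injective e he)
  refine lam_ge_of_orthonormal hH hj' (fun a : Fin (j + 1) => exz e (xi (H.submatrix e e) a)) ?_ ?_
  · intro a b
    have ha : (a : ℕ) < Fintype.card κ := lt_of_le_of_lt (Nat.lt_succ_iff.1 a.2) hj
    have hb : (b : ℕ) < Fintype.card κ := lt_of_le_of_lt (Nat.lt_succ_iff.1 b.2) hj
    rw [ip_exz e he, xi_on hS ha hb]
    by_cases h : a = b
    · rw [if_pos h, if_pos (by rw [h])]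
    · rw [if_neg h, if_neg fun h1 => h (Fin.ext h1)]
  · intro c
    rw [exz_comb, nsq_exz e he, form_exz]
    exact form_comb hS hj c

end sub

/-- Interlacing for a matrix with some rows and columns replaced by zeros: positive eigenvalues. -/
theorem lam_zeroed_le {M : ℕ} {H : Matrix (Fin M) (Fin M) ℂ} (hH : H.IsHermitian) (W : Finset (Fin M)) {j : ℕ} (hj : j < M)
    (hz : (zr W H).IsHermitian) (hpos : 0 < lam (zr W H) j) : lam (zr W H) j ≤ lam H j := by
  have hj' : j < Fintype.card (Fin M) := by rwa [Fintype.card_fin]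
  -- the eigenvectors vanish on `W`
  have hvan : ∀ a : ℕ, a ≤ j → ∀ u ∈ W, xi (zr W H) a u = 0 := by
    intro a ha u hu
    have ha' : a < Fintype.card (Fin M) := lt_of_le_of_lt ha hj'
    have h1 := congrFun (xi_eig hz ha') u
    have h2 : (zr W H).mulVec (xi (zr W H) a) u = 0 := by
      unfold Matrix.mulVec dotProduct
      refine Finset.sum_eq_zero fun v _ => ?_
      have h : zr W H u v = 0 := if_pos (Or.inl hu)
      change zr W H u v * _ = 0
      rw [h, zero_mul]
    rw [h2, Pi.smul_apply, smul_eq_mul] at h1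
    have h3 : (0 : ℝ) < lam (zr W H) a := lt_of_lt_of_le hpos (lam_anti hz ha hj')
    rcases mul_eq_zero.1 h1.symm with h4 | h4
    · exact absurd (Complex.ofReal_eq_zero.1 h4) h3.ne'
    · exact h4
  refine lam_ge_of_orthonormal hH hj' (fun a : Fin (j + 1) => xi (zr W H) a) ?_ ?_
  · intro a b
    have ha : (a : ℕ) < Fintype.card (Fin M) := lt_of_le_of_lt (Nat.lt_succ_iff.1 a.2) hj'
    have hb : (b : ℕ) < Fintype.card (Fin M) := lt_of_le_of_lt (Nat.lt_succ_iff.1 b.2) hj'
    rw [xi_on hz ha hb]
    by_cases h : a = b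
    · rw [if_pos h, if_pos (by rw [h])]
    · rw [if_neg h, if_neg fun h1 => h (Fin.ext h1)]
  · intro c
    obtain ⟨y, hy⟩ : ∃ y : Fin M → ℂ, y = ∑ a : Fin (j + 1), c a • xi (zr W H) a := ⟨_, rfl⟩
    have hyW : ∀ u ∈ W, y u = 0 := by
      intro u hu
      rw [hy, Finset.sum_apply]
      refine Finset.sum_eq_zero fun a _ => ?_
      rw [Pi.smul_apply, hvan a (Nat.lt_succ_iff.1 a.2) u hu, smul_zero]
    have h1 : ip y (H.mulVec y) = ip y ((zr W H).mulVec y) := by
      unfold ip Matrix.mulVec dotProduct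
      refine Finset.sum_congr rfl fun u _ => ?_
      by_cases hu : u ∈ W
      · rw [hyW u hu]
        simp
      · congr 1
        refine Finset.sum_congr rfl fun v _ => ?_
        by_cases hv : v ∈ W
        · rw [hyW v hv, mul_zero, mul_zero]
        · have h : zr W H u v = H u v := if_neg (by rintro (h | h); exacts [hu h, hv h])
          change H u v * y v = zr W H u v * y v
          rw [h]
    change lam (zr W H) j * nsq (∑ a : Fin (j + 1), c a • xi (zr W H) a) ≤
      (ip (∑ a : Fin (j + 1), c a • xi (zr W H) a) (H.mulVec (∑ a : Fin (j + 1), c a • xi (zr W H) a))).re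
    rw [← hy, h1, hy]
    exact form_comb hz hj' c

end ACpFrege
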