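import Pool.Agent.H81.AF.Inter2

/-!
helper81 (project MP_28250c_AF): the diagonal entries of the resolvent are at least those given by a constant trial vector
(Schur complement inequality).
-/

set_option autoImplicit false

namespace ACpFrege

variable {ι : Type} [Fintype ι] [DecidableEq ι] {H : Matrix ι ι ℂ}

theorem ip_single_left (u : ι) (w : ι → ℂ) : ip (Pi.single u (1 : ℂ)) w = w u := by
  unfold ip
  rw [Finset.sum_eq_single u]
  · simp
  · intro v _ hv
    simp [hv]
  · intro h
    exact absurd (Finset.mem_univ u) h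

theorem nsq_single (u : ι) : nsq (Pi.single u (1 : ℂ)) = 1 := by
  rw [nsq_eq_re, ip_single_left]
  simp

/-- The diagonal entries of the resolvent, variational lower bound. -/
theorem res_diag_ge (hH : H.IsHermitian) (u : ι) {t : ℝ} (ht : lam H 0 < t) (z : ι → ℂ) :
    2 * (z u).re - (t * nsq z - (ip z (H.mulVec z)).re) ≤
      ∑ j ∈ Finset.range (Fintype.card ι), ‖xi H j u‖ ^ 2 / (t - lam H j) := by
  have h1 : (z u).re = ∑ j ∈ Finset.range (Fintype.card ι), (ip (xi H j) z * xi H j u).re := by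
    have h := congrFun (xi_expand hH z) u
    rw [Finset.sum_apply] at h
    rw [h, Complex.re_sum]
    rfl
  rw [h1, form_re hH, nsq_expand hH, Finset.mul_sum, Finset.mul_sum, ← Finset.sum_sub_distrib, ← Finset.sum_sub_distrib]
  refine Finset.sum_le_sum fun j hj => ?_
  have hj' := Finset.mem_range.1 hj
  have hk : 0 < t - lam H j := by
    have := lam_anti hH (Nat.zero_le j) hj'
    linarith
  have h2 : (ip (xi H j) z * xi H j u).re ≤ ‖ip (xi H j) z‖ * ‖xi H j u‖ := by
    refine (Complex.re_le_norm _).trans (le_of_eq (norm_mul _ _))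
  obtain ⟨a, ha⟩ : ∃ a, a = ‖ip (xi H j) z‖ := ⟨_, rfl⟩
  obtain ⟨x, hx⟩ : ∃ x, x = ‖xi H j u‖ := ⟨_, rfl⟩
  obtain ⟨k, hk'⟩ : ∃ k, k = t - lam H j := ⟨_, rfl⟩
  rw [← ha, ← hx] at h2
  have h3 : t * a ^ 2 - lam H j * a ^ 2 = k * a ^ 2 := by rw [hk']; ring
  rw [← ha, ← hx, ← hk', h3]
  rw [← hk'] at hk
  have h4 : x ^ 2 / k - 2 * (a * x) + k * a ^ 2 = (x - k * a) ^ 2 / k := by
    field_simp
    ring
  have h5 : 0 ≤ (x - k * a) ^ 2 / k := by positivity
  linarith

/-- The trace of the resolvent. -/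
theorem res_trace (hH : H.IsHermitian) (t : ℝ) :
    ∑ u, ∑ j ∈ Finset.range (Fintype.card ι), ‖xi H j u‖ ^ 2 / (t - lam H j) =
      ∑ j ∈ Finset.range (Fintype.card ι), 1 / (t - lam H j) := by
  rw [Finset.sum_comm]
  refine Finset.sum_congr rfl fun j hj => ?_
  rw [← Finset.sum_div]
  congr 1
  exact xi_nsq hH (Finset.mem_range.1 hj)

section sub

variable {κ : Type} [Fintype κ] [DecidableEq κ] (e : κ → ι)

/-- The form of the trial vector. -/
theorem form_trial (hH : H.IsHermitian) (he : Function.Injective e) (u : ι) (hu : ∀ k, e k ≠ u) (y : κ → ℂ) (c t : ℝ) :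
    t * nsq ((c : ℂ) • (Pi.single u (1 : ℂ) + exz e y)) -
      (ip ((c : ℂ) • (Pi.single u (1 : ℂ) + exz e y)) (H.mulVec ((c : ℂ) • (Pi.single u (1 : ℂ) + exz e y)))).re =
    c ^ 2 * (t - (H u u).re + (t * nsq y - (ip y ((H.submatrix e e).mulVec y)).re) - 2 * (ip y (fun k => H (e k) u)).re) := by
  have h0 : exz e y u = 0 := by
    unfold exz
    exact Finset.sum_eq_zero fun k _ => if_neg (hu k)
  have h1 : nsq (Pi.single u (1 : ℂ) + exz e y) = 1 + nsq y := by
    rw [nsq_add, nsq_single, nsq_exz e he, ip_single_left, h0]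
    simp
  have h2 : H.mulVec (Pi.single u (1 : ℂ)) = fun v => H v u := by
    funext v
    simp [Matrix.mulVec_single]
  have h3 : ip (exz e y) (H.mulVec (Pi.single u (1 : ℂ))) = ip y (fun k => H (e k) u) := by
    rw [h2]
    unfold ip
    rw [exz_sum]
  have h4 : (ip (Pi.single u (1 : ℂ)) (H.mulVec (exz e y))).re = (ip y (fun k => H (e k) u)).re := by
    rw [ip_herm hH, ← ip_conj, Complex.conj_re, h3]
  have h5 : (ip (Pi.single u (1 : ℂ) + exz e y) (H.mulVec (Pi.single u (1 : ℂ) + exz e y))).re =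
      (H u u).re + 2 * (ip y (fun k => H (e k) u)).re + (ip y ((H.submatrix e e).mulVec y)).re := by
    rw [Matrix.mulVec_add, ip_add_left, ip_add_right, ip_add_right, Complex.add_re, Complex.add_re, Complex.add_re, h3, h4,
      form_exz, ip_single_left, h2]
    ring
  rw [nsq_smul, Matrix.mulVec_smul, ip_smul_left, ip_smul_right, Complex.conj_ofReal, Complex.re_ofReal_mul,
    Complex.re_ofReal_mul, h5, h1, Complex.norm_real, Real.norm_eq_abs, sq_abs]
  ring

/-- The Schur complement inequality with a constant: `u` an index outside the principal submatrix on the range of `e`. -/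
theorem schur_ge (hH : H.IsHermitian) (he : Function.Injective e) (u : ι) (hu : ∀ k, e k ≠ u) {t : ℝ} (ht : lam H 0 < t)
    (c : ℝ) :
    2 * c - c ^ 2 * (t - (H u u).re -
      ∑ j ∈ Finset.range (Fintype.card κ), ‖ip (xi (H.submatrix e e) j) (fun k => H (e k) u)‖ ^ 2 / (t - lam (H.submatrix e e) j))
      ≤ ∑ j ∈ Finset.range (Fintype.card ι), ‖xi H j u‖ ^ 2 / (t - lam H j) := by
  obtain ⟨D, hD⟩ : ∃ D, D = H.submatrix e e := ⟨_, rfl⟩
  obtain ⟨r, hr⟩ : ∃ r : κ → ℂ, r = fun k => H (e k) u := ⟨_, rfl⟩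
  have hS : D.IsHermitian := by
    rw [hD]
    exact hH.submatrix e
  rw [← hD, ← hr]
  obtain ⟨y, hy⟩ : ∃ y : κ → ℂ, y = ∑ j ∈ Finset.range (Fintype.card κ), (ip (xi D j) r / ((t - lam D j : ℝ) : ℂ)) • xi D j :=
    ⟨_, rfl⟩
  have hk : ∀ j ∈ Finset.range (Fintype.card κ), 0 < t - lam D j := by
    intro j hj
    have hj' := Finset.mem_range.1 hj
    have h1 := lam_submatrix_le e hH he hj'
    have h2 := lam_anti hH (Nat.zero_le j) (lt_of_lt_of_le hj' (Fintype.card_le_of_injective e he))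
    rw [hD]
    linarith
  have hc : ∀ j ∈ Finset.range (Fintype.card κ), ip (xi D j) y = ip (xi D j) r / ((t - lam D j : ℝ) : ℂ) := by
    intro j hj
    rw [hy, ip_sum_right, Finset.sum_eq_single j]
    · rw [ip_smul_right, xi_on hS (Finset.mem_range.1 hj) (Finset.mem_range.1 hj), if_pos rfl, mul_one]
    · intro i hi hij
      rw [ip_smul_right, xi_on hS (Finset.mem_range.1 hj) (Finset.mem_range.1 hi), if_neg (Ne.symm hij), mul_zero]
    · intro h
      exact absurd hj h
  have h1 : t * nsq y - (ip y (D.mulVec y)).re =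
      ∑ j ∈ Finset.range (Fintype.card κ), ‖ip (xi D j) r‖ ^ 2 / (t - lam D j) := by
    rw [form_re hS, nsq_expand hS, Finset.mul_sum, ← Finset.sum_sub_distrib]
    refine Finset.sum_congr rfl fun j hj => ?_
    have hk' := hk j hj
    rw [hc j hj, norm_div, Complex.norm_real, Real.norm_eq_abs, abs_of_pos hk', div_pow]
    field_simp
  have h2 : (ip y r).re = ∑ j ∈ Finset.range (Fintype.card κ), ‖ip (xi D j) r‖ ^ 2 / (t - lam D j) := by
    rw [ip_expand hS, Complex.re_sum]
    refine Finset.sum_congr rfl fun j hj => ?_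
    rw [hc j hj, map_div₀, Complex.conj_ofReal, div_mul_eq_mul_div, Complex.conj_mul', ← Complex.ofReal_pow,
      ← Complex.ofReal_div, Complex.ofReal_re]
  have h3 := res_diag_ge hH u ht ((c : ℂ) • (Pi.single u (1 : ℂ) + exz e y))
  rw [form_trial e hH he u hu y c t, ← hD] at h3
  rw [← hr] at h3
  rw [h1, h2] at h3
  have h4 : (((c : ℂ) • (Pi.single u (1 : ℂ) + exz e y) : ι → ℂ) u).re = c := by
    have h0 : exz e y u = 0 := by
      unfold exz
      exact Finset.sum_eq_zero fun k _ => if_neg (hu k)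
    rw [Pi.smul_apply, Pi.add_apply, h0, Pi.single_eq_same, add_zero, smul_eq_mul, mul_one, Complex.ofReal_re]
  rw [h4] at h3
  refine le_trans (le_of_eq ?_) h3
  ring

end sub

end ACpFrege
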